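import Mathlib
import Pool.Agent.Helper60K9.SD.Final

/-!
# Simple random walk on planar graphs of uniform polynomial growth is subdiffusive

Question Q1 of Benjamini and Papasoglou: on a planar graph of uniform polynomial growth `n^d`, `d > 2`, the
simple random walk started at any vertex has `E d(o, X_t) ≤ K t^α` with some `α < 1/2`.  The same is
proved for every graph without a `K_m` minor, for any `m`.
-/

set_option autoImplicit false

namespace Pool.Agent.Results.MP_2ce0dd_pr.Subdiffusive

/-- `G` is planar: it has a drawing in the plane `ℂ` in which different vertices are different points, every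
edge is an arc (an injective continuous image of `[0, 1]`) joining its two ends and containing no other
vertex, and two different arcs meet at most in a common end of the two edges. -/
def IsPlanar {V : Type} (G : SimpleGraph V) : Prop :=
  ∃ (p : V → ℂ) (A : Sym2 V → Set ℂ), Function.Injective p ∧
    (∀ u v, G.Adj u v → ∃ γ : unitInterval → ℂ, Continuous γ ∧ Function.Injective γ ∧
      γ 0 = p u ∧ γ 1 = p v ∧ Set.range γ = A s(u, v)) ∧
    (∀ e ∈ G.edgeSet, ∀ v, p v ∈ A e → v ∈ e) ∧
    ∀ e ∈ G.edgeSet, ∀ f ∈ G.edgeSet, e ≠ f → ∀ z ∈ A e, z ∈ A f → ∃ v, v ∈ e ∧ v ∈ f ∧ z = p v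

/-- `G` has a `K_m` minor: `m` pairwise disjoint connected branch sets, any two of which are joined by an
edge. -/
def HasKMinor {V : Type} (G : SimpleGraph V) (m : ℕ) : Prop :=
  ∃ B : Fin m → Set V, (∀ i, (G.induce (B i)).Connected) ∧
    (∀ i j, i ≠ j → Disjoint (B i) (B j)) ∧
    ∀ i j, i ≠ j → ∃ x ∈ B i, ∃ y ∈ B j, G.Adj x y

/-- the ball of radius `n` around `v` for the graph distance -/
def ball {V : Type} (G : SimpleGraph V) (v : V) (n : ℕ) : Set V := {x | G.dist v x ≤ n}

/-- `G` has uniform polynomial growth `n^d` -/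
def UniformGrowth {V : Type} (G : SimpleGraph V) (d : ℝ) : Prop :=
  ∃ c C : ℝ, 0 < c ∧ c < C ∧ ∀ (v : V) (n : ℕ), 1 ≤ n → (ball G v n).Finite ∧
    c * (n : ℝ) ^ d < ((ball G v n).ncard : ℝ) ∧ ((ball G v n).ncard : ℝ) < C * (n : ℝ) ^ d

open Classical in
/-- `walkLaw G o t x` is the probability that the simple random walk started at `o` is at `x` after `t`
steps: in each step the walk moves to a uniformly chosen neighbour of the current vertex. -/
noncomputable def walkLaw {V : Type} (G : SimpleGraph V) [G.LocallyFinite] (o : V) : ℕ → V → ℝ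
  | 0 => fun x => if x = o then 1 else 0
  | t + 1 => fun x => ∑ y ∈ G.neighborFinset x, walkLaw G o t y / G.degree y

/-- the expected graph distance `E d(o, X_t)` of the simple random walk from its starting point -/
noncomputable def expectedDist {V : Type} (G : SimpleGraph V) [G.LocallyFinite] (o : V) (t : ℕ) : ℝ :=
  ∑' x, walkLaw G o t x * (G.dist o x : ℝ)

/-- **Subdiffusivity.** Let `G` be an infinite connected planar graph (or, more generally, a connected graph
without a `K_m` minor for some `m`) of uniform polynomial growth `n^d` with `d > 2`.  Then there are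
`α < 1/2` and `K` such that the simple random walk satisfies `E d(o, X_t) ≤ K t^α` for every starting
vertex `o` and all `t ≥ 1`. -/
theorem result (V : Type) (G : SimpleGraph V) [G.LocallyFinite] (hconn : G.Connected)
    (hG : IsPlanar G ∨ ∃ m : ℕ, ¬ HasKMinor G m) (d : ℝ) (hd : 2 < d) (hvol : UniformGrowth G d) :
    ∃ α K : ℝ, α < 1 / 2 ∧ ∀ (o : V) (t : ℕ), 1 ≤ t → expectedDist G o t ≤ K * (t : ℝ) ^ α := by
  classical
  have hm : ∃ m : ℕ, ¬ HasKMinor G m := by
    rcases hG with h | h
    · exact ⟨5, Pool.Agent.Helper60K9.SD.no_k5_of_planar h⟩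
    · exact h
  obtain ⟨m, hm⟩ := hm
  obtain ⟨c, C, hc, _, hb⟩ := hvol
  have hlaw : ∀ (o : V) (t : ℕ) (x : V), walkLaw G o t x = Pool.Agent.Helper60K9.SD.law G o t x := by
    intro o t
    induction t with
    | zero =>
      intro x
      unfold walkLaw Pool.Agent.Helper60K9.SD.law
      congr
    | succ t ih =>
      intro x
      unfold walkLaw Pool.Agent.Helper60K9.SD.law
      exact Finset.sum_congr rfl fun y _ => by rw [ih y]
  obtain ⟨α, K, hα, hK⟩ := Pool.Agent.Helper60K9.SD.subdiffusive_sets (G := G) hconn hd hc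
    (fun v n hn => (hb v n hn).1) (fun v n hn => (hb v n hn).2.1.le)
    (fun v n hn => (hb v n hn).2.2.le) hm
  refine ⟨α, K, hα, fun o t ht => ?_⟩
  have h1 : expectedDist G o t = ∑' x, Pool.Agent.Helper60K9.SD.law G o t x * (G.dist o x : ℝ) := by
    unfold expectedDist
    exact tsum_congr fun x => by rw [hlaw]
  rw [h1]
  exact hK o t ht

end Pool.Agent.Results.MP_2ce0dd_pr.Subdiffusive
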